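import Pool.Agent.H25.QL.Final

set_option autoImplicit false

/-! MP_9fa340_an, Q1: the conjectured lower bound `m_d(r) ≥ c exp(-C r^(3-d))` is false. -/

namespace Pool.Agent.Results.MP_9fa340_an.SharpBoundFails

open Pool.Agent.H25.QL

/-- For `d = 4` and for `d = 5`, and for every pair `c, C > 0`, there is `r ∈ (0,1)` with
`m_d(r) < c exp(-C r^(3-d))`. -/
theorem result (d : ℕ) (hd : d = 4 ∨ d = 5) (c C : ℝ) (hc : 0 < c) (hC : 0 < C) :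
    ∃ r : ℝ, 0 < r ∧ r < 1 ∧
      mQ d r < ENNReal.ofReal (c * Real.exp (-(C * r ^ (3 - (d : ℤ))))) := by
  rcases hd with rfl | rfl
  · obtain ⟨r, h0, h1, h2⟩ := main (m := 2) (a := -1) (Or.inl ⟨rfl, rfl⟩) hc hC
    refine ⟨r, h0, h1, ?_⟩
    have e : r ^ (3 - ((4:ℕ) : ℤ)) = (r ^ (2 - 1))⁻¹ := by
      have : (3 - ((4:ℕ) : ℤ)) = -((2 - 1 : ℕ) : ℤ) := by norm_num
      rw [this, zpow_neg, zpow_natCast]
    rw [e]
    exact h2
  · obtain ⟨r, h0, h1, h2⟩ := main (m := 3) (a := 0) (Or.inr ⟨rfl, rfl⟩) hc hC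
    refine ⟨r, h0, h1, ?_⟩
    have e : r ^ (3 - ((5:ℕ) : ℤ)) = (r ^ (3 - 1))⁻¹ := by
      have : (3 - ((5:ℕ) : ℤ)) = -((3 - 1 : ℕ) : ℤ) := by norm_num
      rw [this, zpow_neg, zpow_natCast]
    rw [e]
    exact h2

end Pool.Agent.Results.MP_9fa340_an.SharpBoundFails
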